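import Pool.Agent.W751.RV.Stm

set_option autoImplicit false

open Polynomial

namespace Pool.Agent.W135.RV

open Pool.Agent.W751.CD Pool.Agent.W751.CV Pool.Agent.W751.RV

lemma re_gt {u : ℂ} (hu : ‖u‖ < 1) : 1 / 2 < (1 / (1 - u)).re := by
  have hne : (1 : ℂ) - u ≠ 0 := by
    intro h
    have : u = 1 := by linear_combination -h
    rw [this] at hu
    simp at hu
  have hpos : 0 < Complex.normSq (1 - u) := Complex.normSq_pos.2 hne
  have h1 : Complex.normSq u < 1 := by
    rw [Complex.normSq_eq_norm_sq]
    have := norm_nonneg u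
    nlinarith
  have e : (1 / (1 - u)).re = (1 - u.re) / Complex.normSq (1 - u) := by
    rw [one_div, Complex.inv_re]
    simp
  rw [e, div_lt_div_iff₀ (by norm_num) hpos]
  rw [Complex.normSq_apply] at *
  simp only [Complex.sub_re, Complex.one_re, Complex.sub_im, Complex.one_im] at *
  nlinarith

lemma re_gt' {u : ℂ} (hu : ‖u‖ < 1) : -(1 / 2) < (u / (1 - u)).re := by
  have hne : (1 : ℂ) - u ≠ 0 := by
    intro h
    have : u = 1 := by linear_combination -h
    rw [this] at hu
    simp at hu
  have e : u / (1 - u) = 1 / (1 - u) - 1 := by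
    field_simp
    ring
  have := re_gt hu
  rw [e, Complex.sub_re, Complex.one_re]
  linarith

lemma logd {N : ℕ} (f : Fin N → ℂ[X]) (c : ℂ) (h : ∀ i, (f i).eval c ≠ 0) :
    (derivative (∏ i, f i)).eval c =
      (∏ i, f i).eval c * ∑ i, (derivative (f i)).eval c / (f i).eval c := by
  rw [derivative_prod_finset, eval_finset_sum, Finset.mul_sum]
  refine Finset.sum_congr rfl fun i hi => ?_
  rw [← Finset.mul_prod_erase Finset.univ f hi, eval_mul, eval_mul]
  have := h i
  field_simp

theorem proof_w : S_W := by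
  intro N ρ σ z q hN hρ hσ hρσ hz hq c hc1 hc2 hcrit
  have hc0 : c ≠ 0 := by
    intro h; rw [h, norm_zero] at hc1; linarith
  have hcn : 0 < ‖c‖ := norm_pos_iff.2 hc0
  have hzc : ∀ i, ‖z i / c‖ < 1 := fun i => by
    rw [norm_div, div_lt_one hcn]
    exact (hz i).trans_lt hc1
  have hqc : ∀ i, ‖q i * c‖ < 1 := fun i => by
    rw [norm_mul]
    calc ‖q i‖ * ‖c‖ ≤ σ * ‖c‖ := by gcongr; exact hq i
      _ < 1 := by linarith [mul_comm σ ‖c‖]
  have hcz : ∀ i, c - z i ≠ 0 := fun i h => by
    have : z i = c := by linear_combination -h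
    have h2 := hz i
    rw [this] at h2
    linarith
  have hqn : ∀ i, 1 - q i * c ≠ 0 := fun i h => by
    have : q i * c = 1 := by linear_combination -h
    have h2 := hqc i
    rw [this] at h2
    simp at h2
  have hP : (derivative (P z)).eval c = (P z).eval c * ∑ i, 1 / (c - z i) := by
    have := logd (fun i => X - C (z i)) c (fun i => by simpa using hcz i)
    simpa [P] using this
  have hQ : (derivative (Q q)).eval c = (Q q).eval c * ∑ i, (-(q i) / (1 - q i * c)) := by
    have := logd (fun i => 1 - C (q i) * X) c (fun i => by simpa using hqn i)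
    simpa [Q] using this
  have hP0 : (P z).eval c ≠ 0 := by
    simp only [P, eval_prod]
    exact Finset.prod_ne_zero_iff.2 fun i _ => by simpa using hcz i
  have hQ0 : (Q q).eval c ≠ 0 := by
    simp only [Q, eval_prod]
    exact Finset.prod_ne_zero_iff.2 fun i _ => by simpa using hqn i
  unfold Crit at hcrit
  rw [hP, hQ] at hcrit
  have h1 : (∑ i, 1 / (c - z i)) - ∑ i, (-(q i) / (1 - q i * c)) = 0 := by
    have : (P z).eval c * (Q q).eval c *
        ((∑ i, 1 / (c - z i)) - ∑ i, (-(q i) / (1 - q i * c))) = 0 := by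
      linear_combination hcrit
    rcases mul_eq_zero.1 this with h | h
    · exact absurd h (mul_ne_zero hP0 hQ0)
    · exact h
  have h2 : ∑ i : Fin N, (1 / (1 - z i / c) + q i * c / (1 - q i * c)) = 0 := by
    have : ∑ i : Fin N, (1 / (1 - z i / c) + q i * c / (1 - q i * c)) =
        c * ((∑ i, 1 / (c - z i)) - ∑ i, (-(q i) / (1 - q i * c))) := by
      rw [← Finset.sum_sub_distrib, Finset.mul_sum]
      refine Finset.sum_congr rfl fun i _ => ?_
      have a1 := hcz i
      have a2 := hqn i
      have a3 : 1 - z i / c ≠ 0 := by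
        intro h
        apply a1
        have h' : z i / c = 1 := by linear_combination -h
        rw [div_eq_one_iff_eq hc0] at h'
        rw [h', sub_self]
      have e1 : 1 / (1 - z i / c) = c * (1 / (c - z i)) := by
        have : 1 - z i / c = (c - z i) / c := by field_simp
        rw [this, one_div_div]
        ring
      rw [e1]
      ring
    rw [this, h1, mul_zero]
  have h3 : (0 : ℝ) < (∑ i : Fin N, (1 / (1 - z i / c) + q i * c / (1 - q i * c))).re := by
    rw [Complex.re_sum]
    have : Nonempty (Fin N) := ⟨⟨0, hN⟩⟩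
    refine Finset.sum_pos (fun i _ => ?_) Finset.univ_nonempty
    rw [Complex.add_re]
    linarith [re_gt (hzc i), re_gt' (hqc i)]
  rw [h2] at h3
  simp at h3

end Pool.Agent.W135.RV
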